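import Mathlib
import Pool.Agent.N754.LG.LV
import Pool.Agent.N754.FG.Main
import Pool.Agent.N49.FG.RQ1
import Pool.Agent.N455.FG.RQ3
import Pool.Agent.N558.FG.SP
import Pool.Agent.N441.FG.TR

/-!
MP_dc0411_ag, Q1: the Lang–Vojta equivalence of hyperbolicity notions for affine varieties which are
linear over a torus.
-/

set_option autoImplicit false
set_option linter.overlappingInstances false

namespace Pool.Agent.Results.MP_dc0411_ag.LinearOverTorus

open MvPolynomial FF Pool.Agent.W603.LV Pool.Agent.H159R3.Exp Pool.Agent.W602.GT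

variable {n : ℕ}

/-- The complex points of the closed subset `V(I)` of affine space. -/
def Pts (I : Ideal (MvPolynomial (Fin n) ℂ)) : Set (Fin n → ℂ) :=
  {x | ∀ Q ∈ I, eval x Q = 0}

/-- The ideal is generated by polynomials of degree at most one in the variables with index outside
`U`. -/
def LinearOff (I : Ideal (MvPolynomial (Fin n) ℂ)) (U : Finset (Fin n)) : Prop :=
  ∃ s : Set (MvPolynomial (Fin n) ℂ), I = Ideal.span s ∧
    ∀ Q ∈ s, ∀ m ∈ Q.support, ∑ j ∈ Uᶜ, m j ≤ 1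

/-- The nonconstant maps `t ↦ v t`, `t ≠ 0`, to `V(I)` with Laurent coordinates: the nonconstant
morphisms from `𝔾ₘ` to `V(I)`. -/
def Laurents (I : Ideal (MvPolynomial (Fin n) ℂ)) : Set (ℂ → Fin n → ℂ) :=
  {v | (∀ j, Laur fun t => v t j) ∧ (∀ t, t ≠ 0 → v t ∈ Pts I) ∧
    ∃ s t, s ≠ 0 ∧ t ≠ 0 ∧ v s ≠ v t}

/-- Every point `z` of `V(I)` outside `V(J)` which has the same coordinates with index in `U` as
another point of `V(I)` is the value at `1` of a nonconstant map to `V(I)` with Laurent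
coordinates. -/
def FibresCovered (I J : Ideal (MvPolynomial (Fin n) ℂ)) (U : Finset (Fin n)) : Prop :=
  ∀ z ∈ Pts I, z ∉ Pts J → ∀ z' ∈ Pts I, (∀ i ∈ U, z' i = z i) → z' ≠ z →
    ∃ v ∈ Laurents I, v 1 = z

/-- The nonconstant entire curves in `V(I)` lie in `V(J)`. -/
def EntireIn (I J : Ideal (MvPolynomial (Fin n) ℂ)) : Prop :=
  ∀ f : ℂ → Fin n → ℂ, Differentiable ℂ f → (∀ z, f z ∈ Pts I) → (∃ z w, f z ≠ f w) →
    ∀ z, f z ∈ Pts J

/-- The variety `V(p)` is of logarithmic general type. Here `K` is its function field, `y` its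
generic point, and the places of `K` with a pole of some coordinate are those without centre on
`V(p)`. -/
def OfLogGeneralType (p : Ideal (MvPolynomial (Fin n) ℂ)) : Prop :=
  ∃ (K : Type) (_ : Field K) (_ : Algebra ℂ K) (y : Fin n → K) (w : ℕ),
    (∀ Q, aeval y Q = 0 ↔ Q ∈ p) ∧ IntermediateField.adjoin ℂ (Set.range y) = ⊤ ∧
    LogGeneralType ℂ K w fun P => ∃ j, P.ord (y j) < 0

/-- Every closed irreducible subset `V(p)` of `V(I)` not contained in `V(J)` is of logarithmic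
general type. -/
def SubvarietiesLogGeneral (I J : Ideal (MvPolynomial (Fin n) ℂ)) : Prop :=
  ∀ p : Ideal (MvPolynomial (Fin n) ℂ), p.IsPrime → I ≤ p → ¬ J ≤ p → OfLogGeneralType p

/-- The morphisms to `V(I)` from the smooth curve `C` whose function field is `K` and whose places
at infinity are those in `S`. -/
def Maps (I : Ideal (MvPolynomial (Fin n) ℂ)) {K : Type} [Field K] [Algebra ℂ K]
    (S : Finset (Place ℂ K)) : Set (Fin n → K) :=
  {f | (∀ j, ∀ P ∉ S, 0 ≤ P.ord (f j)) ∧ ∀ Q ∈ I, aeval f Q = 0}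

/-- For every smooth curve `C`, every point `P` of `C` and every point `x` of `V(I)` outside
`V(J)`, the morphisms `f` from `C` to `V(I)` with `f(P) = x` are finite in number. -/
def PointedFinite (I J : Ideal (MvPolynomial (Fin n) ℂ)) : Prop :=
  ∀ (K : Type) [Field K] [Algebra ℂ K] [IsFF ℂ K] (S : Finset (Place ℂ K)) (P : Place ℂ K),
    P ∉ S → ∀ x ∈ Pts I, x ∉ Pts J →
    {f ∈ Maps I S | ∀ j, Ge P 1 (f j - algebraMap ℂ K (x j))}.Finite

/-- The degree of a nonconstant morphism from a smooth curve to `V(I)` with image not contained in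
`V(J)` is at most a constant times the Euler characteristic `2 g - 2 + s` of the curve. -/
def LinearBound (I J : Ideal (MvPolynomial (Fin n) ℂ)) : Prop :=
  ∃ A : ℕ, ∀ (K : Type) [Field K] [Algebra ℂ K] [IsFF ℂ K] (S : Finset (Place ℂ K)),
    ∀ f ∈ Maps I S, f ∉ Maps J S → (∃ j, ∀ c : ℂ, f j ≠ algebraMap ℂ K c) →
    mapDeg ℂ f ≤ A * euler S

/-- For every finitely generated subring `R` of `ℂ`, only finitely many points of `V(I)` with
coordinates in `R` are outside `V(J)`. -/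
def FinitelyManyOver (I J : Ideal (MvPolynomial (Fin n) ℂ)) : Prop :=
  ∀ s : Finset ℂ, {x | (∀ j, x j ∈ Subring.closure (s : Set ℂ)) ∧ x ∈ Pts I ∧ x ∉ Pts J}.Finite

theorem pts_iff (I : Ideal (MvPolynomial (Fin n) ℂ)) (x : Fin n → ℂ) :
    x ∈ Pts I ↔ ∀ Q ∈ I, aeval x Q = 0 := by
  unfold Pts
  simp only [Set.mem_setOf_eq, Pool.Agent.N754.LT.ae_eval]

/-- Let `V = V(I)` be a closed subset of affine space over `ℂ`, `V' = V(J)` another one (which may
be empty, `J = ⊤`), and `U` a set of coordinates without zeros on `V`. Suppose that `V` is linear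
over the torus with coordinates in `U`: the ideal `I` is generated by polynomials of degree at most
one in the other coordinates; or, more generally, that the points of `V` outside `V'` which are not
alone in their fibres over this torus are on nonconstant curves in `V` with Laurent coordinates.
Then the following are equivalent:
* the nonconstant entire curves in `V` lie in `V'` (if `V'` is empty: `V` is Brody hyperbolic);
* all closed subvarieties of `V` not contained in `V'` are of logarithmic general type;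
* the sets of pointed maps from smooth curves to `(V, x)` are finite for all `x` outside `V'`;
* the nonconstant morphisms `𝔾ₘ → V` have image in `V'`;
* `deg f ≤ A χ(C)` for some `A` and all nonconstant morphisms `f` from smooth curves `C` to `V` with
  image not contained in `V'`;
* `V(R)` has only finitely many points outside `V'`, for all finitely generated subrings `R` of
  `ℂ`. -/
theorem result (I J : Ideal (MvPolynomial (Fin n) ℂ)) (U : Finset (Fin n))
    (hU : ∀ z ∈ Pts I, ∀ i ∈ U, z i ≠ 0) (hfib : LinearOff I U ∨ FibresCovered I J U) :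
    List.TFAE [EntireIn I J, SubvarietiesLogGeneral I J, PointedFinite I J,
      ∀ v ∈ Laurents I, ∀ t, t ≠ 0 → v t ∈ Pts J, LinearBound I J, FinitelyManyOver I J] := by
  classical
  -- a finite set of generators
  obtain ⟨s, hIs, hlin⟩ : ∃ s : Set (MvPolynomial (Fin n) ℂ), I = Ideal.span s ∧
      (LinearOff I U → ∀ Q ∈ s, ∀ m ∈ Q.support, ∑ j ∈ Uᶜ, m j ≤ 1) := by
    by_cases h : LinearOff I U
    · obtain ⟨s, h1, h2⟩ := h
      exact ⟨s, h1, fun _ => h2⟩
    · exact ⟨I, (Ideal.span_eq I).symm, fun h' => absurd h' h⟩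
  obtain ⟨t, hts, hst⟩ := (Submodule.fg_span_iff_fg_span_finset_subset _).1
    (IsNoetherian.noetherian (Ideal.span s))
  have hst' : Ideal.span s = Ideal.span (t : Set (MvPolynomial (Fin n) ℂ)) := hst
  let E : t → MvPolynomial (Fin n) ℂ := fun l => l.1
  let G : J → MvPolynomial (Fin n) ℂ := fun l => l.1
  have hIE : I = Ideal.span (Set.range E) := by
    have hrange : Set.range E = (t : Set (MvPolynomial (Fin n) ℂ)) := by
      ext Q
      exact ⟨fun ⟨l, hl⟩ => hl ▸ l.2, fun h => ⟨⟨Q, h⟩, rfl⟩⟩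
    rw [hIs, hst', hrange]
  have hspan : ∀ (s : Set (MvPolynomial (Fin n) ℂ)) (L : Type) [Field L] [Algebra ℂ L]
      (x : Fin n → L), (∀ Q ∈ s, aeval x Q = 0) → ∀ Q ∈ Ideal.span s, aeval x Q = 0 := by
    intro s L _ _ x h Q hQ
    have h1 : Ideal.span s ≤ RingHom.ker (aeval (R := ℂ) x) := by
      rw [Ideal.span_le]
      exact h
    exact h1 hQ
  have hI : ∀ (L : Type) [Field L] [Algebra ℂ L] (x : Fin n → L),
      (∀ Q ∈ I, aeval x Q = 0) ↔ ∀ l, aeval x (E l) = 0 := by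
    intro L _ _ x
    constructor
    · intro h l
      apply h
      rw [hIE]
      exact Ideal.subset_span ⟨l, rfl⟩
    · intro h Q hQ
      rw [hIE] at hQ
      refine hspan _ L x ?_ Q hQ
      rintro _ ⟨l, rfl⟩
      exact h l
  have hJ : ∀ (L : Type) [Field L] [Algebra ℂ L] (x : Fin n → L),
      (∀ Q ∈ J, aeval x Q = 0) ↔ ∀ l, aeval x (G l) = 0 := fun L _ _ x =>
    ⟨fun h l => h l.1 l.2, fun h Q hQ => h ⟨Q, hQ⟩⟩
  have hPI : ∀ z, z ∈ Pool.Agent.N754.FG.Pts E ↔ z ∈ Pts I := by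
    intro z
    rw [pts_iff, hI]
    unfold Pool.Agent.N754.FG.Pts
    simp only [Set.mem_setOf_eq, Pool.Agent.N754.LT.ae_eval]
  have hPJ : ∀ z, z ∈ Pool.Agent.N754.FG.Pts G ↔ z ∈ Pts J := by
    intro z
    rw [pts_iff, hJ]
    unfold Pool.Agent.N754.FG.Pts
    simp only [Set.mem_setOf_eq, Pool.Agent.N754.LT.ae_eval]
  have hcov : Pool.Agent.N754.FV.Cov ℂ E G U := by
    rcases hfib with h | h
    · exact Pool.Agent.N754.FV.cov_of_lin ℂ E G U fun l => hlin h _ (hts l.2)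
    · rintro z z' hz ⟨l0, hl0⟩ hz' hzz' hne
      obtain ⟨v, ⟨hv1, hv2, s, t, hs, ht, hst⟩, hv4⟩ := h z
        ((pts_iff I z).2 ((hI ℂ z).2 hz))
        (fun hzJ => hl0 ((hJ ℂ z).1 ((pts_iff J z).1 hzJ) l0)) z'
        ((pts_iff I z').2 ((hI ℂ z').2 hz')) hzz' hne
      refine ⟨v, hv1, fun l s hs => (hI ℂ _).1 ((pts_iff I _).1 (hv2 s hs)) l, hv4, ?_⟩
      by_contra hcon
      push Not at hcon
      exact hst (by rw [hcon s hs, hcon t ht])
  have hLI : Pool.Agent.N754.FV.LaurIn ℂ E G ↔ ∀ v ∈ Laurents I, ∀ t, t ≠ 0 → v t ∈ Pts J := by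
    constructor
    · rintro h v ⟨hv1, hv2, hv3⟩ t ht
      rw [pts_iff, hJ]
      exact fun l => h v hv1 (fun l s hs => (hI ℂ _).1 ((pts_iff I _).1 (hv2 s hs)) l) hv3 l t ht
    · intro h v hv1 hv2 hv3 l s hs
      exact (hJ ℂ _).1 ((pts_iff J _).1 (h v ⟨hv1, fun t ht => (pts_iff I _).2
        ((hI ℂ _).2 fun l => hv2 l t ht), hv3⟩ s hs)) l
  have hSP : Pool.Agent.N754.FG.SP :=
    Pool.Agent.N558.FG.sp (Pool.Agent.N455.FG.rq3 Pool.Agent.N49.FG.rq1)
  have hcovG : Pool.Agent.N754.FG.Covered E G U := by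
    rintro z hz hzG ⟨z', hz', hzU, hne⟩
    have h1 := (pts_iff I z).1 ((hPI z).1 hz)
    have h2 := (pts_iff I z').1 ((hPI z').1 hz')
    obtain ⟨l0, hl0⟩ : ∃ l, aeval z (G l) ≠ 0 := by
      by_contra hcon
      push Not at hcon
      exact hzG ((hPJ z).2 ((pts_iff J z).2 ((hJ ℂ z).2 hcon)))
    obtain ⟨v, hv1, hv2, hv3, hv4⟩ := hcov z z' ((hI ℂ z).1 h1) ⟨l0, hl0⟩ ((hI ℂ z').1 h2) hzU hne
    exact ⟨v, hv1, fun t ht => (hPI _).2 ((pts_iff I _).2 ((hI ℂ _).2 fun l => hv2 l t ht)),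
      hv3, hv4⟩
  obtain ⟨-, -, hTF⟩ := Pool.Agent.N754.FG.tfaeC hSP Pool.Agent.N441.FG.tr E G U
    (fun z hz i hi => hU z ((hPI z).1 hz) i hi) hcovG
  have hL4 : Pool.Agent.N754.FG.LaurentIn E G ↔ ∀ v ∈ Laurents I, ∀ t, t ≠ 0 → v t ∈ Pts J := by
    constructor
    · rintro h v ⟨hv1, hv2, hv3⟩ t ht
      exact (hPJ _).1 (h v hv1 (fun s hs => (hPI _).2 (hv2 s hs)) hv3 t ht)
    · intro h v hv1 hv2 hv3 t ht
      exact (hPJ _).2 (h v ⟨hv1, fun s hs => (hPI _).1 (hv2 s hs), hv3⟩ t ht)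
  tfae_have 1 ↔ 4 := by
    rw [← hL4]
    refine Iff.trans ?_ (hTF.out 0 2)
    constructor
    · intro h f hf1 hf2 hf3 z
      exact (hPJ _).2 (h f hf1 (fun z => (hPI _).1 (hf2 z)) hf3 z)
    · intro h f hf1 hf2 hf3 z
      exact (hPJ _).1 (h f hf1 (fun z => (hPI _).2 (hf2 z)) hf3 z)
  tfae_have 6 ↔ 4 := by
    rw [← hL4]
    refine Iff.trans ?_ (hTF.out 1 2)
    refine forall_congr' fun s => ?_
    have hset : {x : Fin n → ℂ | (∀ j, x j ∈ Subring.closure (s : Set ℂ)) ∧ x ∈ Pts I ∧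
        x ∉ Pts J} = {x : Fin n → ℂ | (∀ j, x j ∈ Subring.closure (s : Set ℂ)) ∧
        x ∈ Pool.Agent.N754.FG.Pts E ∧ x ∉ Pool.Agent.N754.FG.Pts G} := by
      ext x
      simp only [Set.mem_setOf_eq]
      rw [hPI, hPJ]
    rw [hset]
  -- the maps are determined by their coordinates in `U`
  have halone : (∀ v ∈ Laurents I, ∀ t, t ≠ 0 → v t ∈ Pts J) → ∀ z z' : Fin n → ℂ,
      (∀ Q ∈ I, aeval z Q = 0) → (∀ Q ∈ I, aeval z' Q = 0) → z ∉ Pts J →
      (∀ i ∈ U, z' i = z i) → z' = z := by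
    intro h z z' hz hz' hzJ hzU
    by_contra hne
    obtain ⟨l0, hl0⟩ : ∃ l, aeval z (G l) ≠ 0 := by
      by_contra hcon
      push Not at hcon
      exact hzJ ((pts_iff J z).2 ((hJ ℂ z).2 hcon))
    obtain ⟨v, hv1, hv2, hv3, t, ht, hv4⟩ := hcov z z' ((hI ℂ z).1 hz) ⟨l0, hl0⟩
      ((hI ℂ z').1 hz') hzU hne
    apply hzJ
    rw [← hv3]
    exact h v ⟨hv1, fun t ht => (pts_iff I _).2 ((hI ℂ _).2 fun l => hv2 l t ht), t, 1, ht,
      one_ne_zero, by rw [hv3]; exact hv4⟩ 1 one_ne_zero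
  tfae_have 4 → 2 := by
    intro h p hp hIp hJp
    obtain ⟨Q0, hQ0, hQ0p⟩ := SetLike.not_le_iff_exists.1 hJp
    -- the function field
    let K : Type := FractionRing (MvPolynomial (Fin n) ℂ ⧸ p)
    let y : Fin n → K := fun j => algebraMap (MvPolynomial (Fin n) ℂ ⧸ p) K
      (Ideal.Quotient.mk p (X j))
    have hyQ : ∀ Q : MvPolynomial (Fin n) ℂ, aeval y Q =
        algebraMap (MvPolynomial (Fin n) ℂ ⧸ p) K (Ideal.Quotient.mk p Q) := by
      intro Q
      have h1 : ((IsScalarTower.toAlgHom ℂ (MvPolynomial (Fin n) ℂ ⧸ p) K).comp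
          (Ideal.Quotient.mkₐ ℂ p)) = aeval (R := ℂ) y := by
        apply MvPolynomial.algHom_ext
        intro i
        rw [AlgHom.comp_apply, aeval_X]
        rfl
      rw [← h1]
      rfl
    have hy : ∀ Q, aeval y Q = 0 ↔ Q ∈ p := by
      intro Q
      rw [hyQ, map_eq_zero_iff _ (IsFractionRing.injective (MvPolynomial (Fin n) ℂ ⧸ p) K),
        Ideal.Quotient.eq_zero_iff_mem]
    have htop : IntermediateField.adjoin ℂ (Set.range y) = ⊤ := by
      rw [eq_top_iff]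
      intro x _
      obtain ⟨a, b, hb, rfl⟩ := IsFractionRing.div_surjective
        (A := MvPolynomial (Fin n) ℂ ⧸ p) x
      have hmem : ∀ a : MvPolynomial (Fin n) ℂ ⧸ p,
          algebraMap (MvPolynomial (Fin n) ℂ ⧸ p) K a ∈
            IntermediateField.adjoin ℂ (Set.range y) := by
        intro a
        obtain ⟨Q, rfl⟩ := Ideal.Quotient.mk_surjective a
        rw [← hyQ]
        have h2 : aeval y Q ∈ Algebra.adjoin ℂ (Set.range y) := by
          rw [Algebra.adjoin_range_eq_range_aeval]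
          exact ⟨Q, rfl⟩
        exact IntermediateField.algebra_adjoin_le_adjoin _ _ h2
      exact div_mem (hmem a) (hmem b)
    have hgen := Pool.Agent.N754.LG.gen_of_alone (k := ℂ) Pool.Agent.N754.LG.sp2
      Pool.Agent.N754.LG.aut Q0 hQ0p U (fun z z' hz hz' hz0 hzU =>
        halone h z z' (fun Q hQ => hz Q (hIp hQ)) (fun Q hQ => hz' Q (hIp hQ))
          (fun hzJ => hz0 ((pts_iff J z).1 hzJ Q0 hQ0)) hzU) y hy htop
    obtain ⟨H, hG⟩ := Pool.Agent.N754.LG.exists_gen U y hy hgen ℂ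
      fun z hz i hi => hU z ((pts_iff I z).2 fun Q hQ => hz Q (hIp hQ)) i hi
    by_contra hL
    obtain ⟨v, h1, h2, ⟨j, h3⟩, h4⟩ := Pool.Agent.N754.LG.laurent_of_not' hG y hy hgen hL ℂ Q0 hQ0p
    apply h4
    refine (pts_iff J _).1 (h v ⟨h1, fun t ht => (pts_iff I _).2 fun Q hQ => h2 Q (hIp hQ) t ht,
      2, 1, two_ne_zero, one_ne_zero, fun h => h3 (congrFun h j)⟩ 1 one_ne_zero) Q0 hQ0
  tfae_have 2 → 4 := by
    rintro h v ⟨hv1, hv2, hv3⟩ t ht
    obtain ⟨p, hp, hmem, hL⟩ := Pool.Agent.N754.LG.not_logGT_curve v hv1 hv3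
    by_contra hcon
    refine hL (h p hp (fun Q hQ => (hmem Q).2 fun s hs => (pts_iff I _).1 (hv2 s hs) Q hQ) ?_)
    intro hJp
    apply hcon
    rw [pts_iff]
    intro Q hQ
    exact (hmem Q).1 (hJp hQ) t ht
  tfae_have 4 → 5 := by
    intro h
    obtain ⟨A, hA⟩ := Pool.Agent.N754.FV.boundC_of_laurIn (k := ℂ) Pool.Agent.N754.LG.wr
      Pool.Agent.N754.LG.emb Pool.Agent.N754.LG.sp2 Pool.Agent.N754.LG.spl U E G
      (fun z hz i hi => hU z ((pts_iff I z).2 ((hI ℂ z).2 hz)) i hi) hcov (hLI.2 h)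
    have hlin := Pool.Agent.N754.LG.linear_of_max (k := ℂ) Pool.Agent.N754.LG.gz I J A
      (fun K _ _ _ S f hf hfI ⟨Q, hQ, hfQ⟩ => hA K S f hf ((hI K f).1 hfI) ⟨⟨Q, hQ⟩, hfQ⟩)
    refine ⟨A, fun K _ _ _ S f hf hfJ hne => hlin K S f hf.1 hf.2 ?_ hne⟩
    by_contra hcon
    push Not at hcon
    exact hfJ ⟨hf.1, hcon⟩
  tfae_have 5 → 4 := by
    rintro ⟨A, h⟩
    rw [← hLI]
    refine Pool.Agent.N754.FV.laurIn_of_gm (k := ℂ) Pool.Agent.N754.LG.rc E G ?_
    intro S _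
    have hFF : IsFF ℂ (RatFunc ℂ) := Pool.Agent.TH143.GT.isFF_ratFunc ℂ
    refine ⟨A * euler S, fun f h1 h2 ⟨l, h3⟩ hne => ?_⟩
    exact h (RatFunc ℂ) S f ⟨h1, (hI _ f).2 h2⟩ (fun h4 => h3 (h4.2 _ l.2)) hne
  tfae_have 3 → 4 := by
    intro h
    have hFF : IsFF ℂ (RatFunc ℂ) := Pool.Agent.TH143.GT.isFF_ratFunc ℂ
    rw [← hLI]
    refine Pool.Agent.N754.LG.laurIn_of_pointed Pool.Agent.N754.LG.rc E G ?_
    intro S P0 hP0 x hx ⟨l, hxl⟩
    refine (h (RatFunc ℂ) S P0 hP0 x ((pts_iff I x).2 ((hI ℂ x).2 hx)) ?_).subset ?_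
    · intro hxJ'
      exact hxl ((pts_iff J x).1 hxJ' l.1 l.2)
    · rintro f ⟨h1, h2, h3⟩
      exact ⟨⟨h1, (hI _ f).2 h2⟩, h3⟩
  tfae_have 5 → 3 := by
    intro h5 K _ _ _ S P hP x hx hxJ
    have h4 : ∀ v ∈ Laurents I, ∀ t, t ≠ 0 → v t ∈ Pts J := tfae_5_to_4 h5
    obtain ⟨A, hA⟩ := h5
    obtain ⟨Q0, hQ0, hx0⟩ : ∃ Q ∈ J, eval x Q ≠ 0 := by
      by_contra hcon
      push Not at hcon
      exact hxJ hcon
    have hfx : ∀ (f : Fin n → K), (∀ j, Ge P 1 (f j - algebraMap ℂ K (x j))) →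
        aeval f Q0 ≠ 0 := by
      intro f hf h0
      have h1 := Pool.Agent.N754.FV.vaeval hf Q0
      rw [h0] at h1
      exact Pool.Agent.N754.FV.not_ge_const hx0 h1
    refine Pool.Agent.N754.LG.pointed_finite Pool.Agent.N754.LG.ptu S P hP U x
      (fun i hi => hU x hx i hi) _ (max (A * euler S) 0) ?_ ?_ ?_ ?_
    · rintro f ⟨hf, -⟩ i hi
      obtain ⟨B', hB'⟩ := Pool.Agent.N754.FV.unit_certF (Ω := ℂ) E i
        fun z hz => hU z ((pts_iff I z).2 ((hI ℂ z).2 hz)) i hi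
      have h1 : aeval f (B' * X i - 1) = 0 := by
        apply hf.2
        rw [hIE]
        exact hB'
      have hne : f i ≠ 0 := by
        intro h0
        rw [map_sub, map_mul, aeval_X, map_one, h0, mul_zero, zero_sub, neg_eq_zero] at h1
        exact one_ne_zero h1
      exact ⟨hne, fun Q hQ => (Pool.Agent.N754.LG.unit_ord (P := Q) f
        (fun j => hf.1 j Q hQ) i B' h1).2⟩
    · rintro f ⟨hf, hfv⟩
      by_cases hne : ∃ j, ∀ c : ℂ, f j ≠ algebraMap ℂ K c
      · exact (hA K S f hf (fun h => hfx f hfv (h.2 Q0 hQ0)) hne).trans (le_max_left _ _)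
      · push Not at hne
        rw [Pool.Agent.N754.FV.mapDeg_const f hne]
        exact le_max_right _ _
    · rintro f ⟨-, hfv⟩
      exact hfv
    · rintro f ⟨hf, hfv⟩ g ⟨hg, -⟩ hfg
      by_contra hne
      obtain ⟨z, z', e1, e2, e3, e4, e5⟩ := Pool.Agent.N754.LG.sp2 ℂ ℂ K t n E Q0 U f g
        ((hI K f).1 hf.2) ((hI K g).1 hg.2) (fun i hi => (hfg i hi).symm)
        (fun h => hne h.symm) (hfx f hfv)
      exact e4 (halone h4 z z' ((hI ℂ z).2 e1) ((hI ℂ z').2 e2)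
        (fun hzJ => e5 ((pts_iff J z).1 hzJ Q0 hQ0)) e3)
  tfae_finish

end Pool.Agent.Results.MP_dc0411_ag.LinearOverTorus
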