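import Pool.Agent.N111.QC.Ptd

/-!
MP_dc0411_ag, Q1: the equivalence of the three notions of hyperbolicity (Brody hyperbolicity; all
subvarieties are of log general type; finiteness of pointed maps from curves) for all complex
quasi-projective varieties is equivalent to their equivalence for the smooth rational ones: the
quasi-projective varieties which are covered by open subsets of affine spaces.

Quasi-projective varieties (in the sense of the problem: they can be reducible or singular) are given
as locally closed subschemes of `ℙ ^ n × 𝔸 ^ τ`, `τ` a finite set: `F` is a finite family of equations,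
and `H` is a finite family of functions, some of which has to be nonzero; all of them are homogeneous
in the coordinates `x_0, …, x_n` (`HomX`). See `Pool/Agent/N111/QC/QP.lean` and
`Pool/Agent/N111/QC/Ptd.lean` for the definitions:

* `Brody F H`: condition (1), every holomorphic map from `ℂ` to the variety is constant (`Holo`:
  holomorphic maps to `ℙ ^ n`);
* `AllLG ℂ F H`: condition (2), all closed subvarieties of positive dimension are of log general type.
  A closed subvariety with function field `E` is given by its generic point `(x, s)` (`GenPt`); the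
  places `P` of `E` without centre on it are those for which `(x, s)` does not extend to a point over
  the valuation ring of `P` (`Extends`);
* `Pointed F H`: condition (3), for connected smooth quasi-projective curves `C`, given by a function
  field `E` of one variable and by a set `S` of places of `E` with finite complement, for `c ∈ S`
  and for points `(a, b)`, only finitely many morphisms from `C` (`Mor`) send `c` to `(a, b)`
  (`SendsTo`);
* `AffineCharts F`: the open subschemes `x_j ≠ 0` of the closed subscheme `W` of `ℙ ^ n × 𝔸 ^ τ` given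
  by `F` are isomorphic to affine spaces;
* `ClosedIn F H F' H'`: the variety given by `F`, `H` is the closed subscheme of the variety given by
  `F'`, `H'` where the new coordinates vanish.

Proof. Let `U` be given by `F_i` of degrees `e_i` and by `H`. The equations `∑_j x_j ^ (e_i + 1) c_ij =
F_i(x, s)`, where `c_ij` is a coordinate of degree `-1` in `x`, define an affine bundle `W` over
`ℙ ^ n × 𝔸 ^ τ`, and `{F = 0}` is its subscheme `c = 0`. The functions `T_t`, `t = 1, …, M`, which are
the products `c_ij x_k` and `c_ij x_k s_l`, are regular on `W` and separate the points off `{c = 0}`.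
Let `X` be the open subscheme of `W` where some `H` is not zero and the functions
`g_l = 1 + l T_1 + l ^ 2 T_2 + … + l ^ M T_M` are not zero for `l = 1, …, 2 M`. By Green's argument for
`2 M + 1` hyperplanes in general position, the `T_t` are constant on entire curves in `X`. For a
curve `C` and a point `c`, the units of `C` with the value `1` at `c` form a finitely generated group,
so by the theorem on unit equations over finitely generated domains there are only finitely many
possibilities for the functions `T_t` on `C`.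
-/

set_option autoImplicit false
set_option linter.overlappingInstances false

namespace Pool.Agent.Results.MP_dc0411_ag.RationalVarieties

open MvPolynomial FF LinearAlgebra.Projectivization
open Pool.Agent.W602.GT (LogGeneralType)
open Pool.Agent.N111.QC (HomX Extends GenPt AllLG AffineCharts ClosedIn Holo Brody Mor SendsTo
  Pointed)

/-- **(1)** Every complex quasi-projective variety `U`, given in `ℙ ^ n × 𝔸 ^ τ` by `F` and `H`, is a
closed subscheme of a quasi-projective variety `X`, given in `ℙ ^ n × 𝔸 ^ τ × 𝔸 ^ υ` by `F'` and `H'`,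
which is open in a scheme whose charts are affine spaces, such that: every holomorphic map `ℂ → X` is
constant or has its image in `U`; all subvarieties of `X` of positive dimension which are not
contained in `U` are of log general type; for all pointed curves, there are only finitely many
morphisms to `X` with given value which do not have their image in `U`. Hence each of the
conditions (1), (2), (3) of the problem is equivalent for `X` and for `U`.

**(2)** The conditions (1), (2), (3) are equivalent for all complex quasi-projective varieties if and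
only if they are equivalent for the open subschemes of the closed subschemes of `ℙ ^ n × 𝔸 ^ τ` (for
all `n` and `τ`) whose charts are affine spaces. -/
theorem result :
    (∀ (n : ℕ) (τ ι κ : Type) [Finite τ] [Finite ι] [Finite κ]
      (F : ι → MvPolynomial (Fin (n + 1) ⊕ τ) ℂ) (H : κ → MvPolynomial (Fin (n + 1) ⊕ τ) ℂ),
      (∀ i, ∃ e, HomX (F i) e) → (∀ j, ∃ e, HomX (H j) e) →
      ∃ (υ ι' : Type) (_ : Finite υ) (_ : Finite ι')
        (F' : ι' → MvPolynomial (Fin (n + 1) ⊕ (τ ⊕ υ)) ℂ)
        (H' : κ → MvPolynomial (Fin (n + 1) ⊕ (τ ⊕ υ)) ℂ),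
        (∀ i, ∃ e, HomX (F' i) e) ∧ (∀ j, ∃ e, HomX (H' j) e) ∧ AffineCharts F' ∧
        ClosedIn F H F' H' ∧
        (∀ (f : ℂ → ℙ ℂ (Fin (n + 1) → ℂ)) (s : ℂ → τ ⊕ υ → ℂ), Holo f →
          (∀ j, Differentiable ℂ fun z => s z j) →
          (∀ z, (∀ i, aeval (Sum.elim (f z).rep (s z)) (F' i) = 0) ∧
            ∃ j, aeval (Sum.elim (f z).rep (s z)) (H' j) ≠ 0) →
          (∀ z u, s z (Sum.inr u) = 0) ∨ ∀ z w, f z = f w ∧ s z = s w) ∧
        (∀ (E : Type) [Field E] [Algebra ℂ E] (x : Fin (n + 1) → E) (s : τ ⊕ υ → E) (d : ℕ),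
          GenPt ℂ F' H' x s → (∃ u, s (Sum.inr u) ≠ 0) → 0 < d → Algebra.trdeg ℂ E = d →
          LogGeneralType ℂ E d fun P => ¬ Extends {z | P.Reg z} H' x s) ∧
        (∀ (E : Type) [Field E] [Algebra ℂ E] [IsFF ℂ E] (S : Set (Place ℂ E)) (c : Place ℂ E)
          (a : Fin (n + 1) → ℂ) (b : τ ⊕ υ → ℂ), Sᶜ.Finite → c ∈ S → a ≠ 0 →
          {Q ∈ Mor S F' H' | SendsTo c Q.1.rep Q.2 a b ∧ ∃ u, Q.2 (Sum.inr u) ≠ 0}.Finite) ∧
        (Brody F' H' ↔ Brody F H) ∧ (AllLG ℂ F' H' ↔ AllLG ℂ F H) ∧
        (Pointed F' H' ↔ Pointed F H)) ∧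
    ((∀ (n : ℕ) (τ ι κ : Type) [Finite τ] [Finite ι] [Finite κ]
      (F : ι → MvPolynomial (Fin (n + 1) ⊕ τ) ℂ) (H : κ → MvPolynomial (Fin (n + 1) ⊕ τ) ℂ),
      (∀ i, ∃ e, HomX (F i) e) → (∀ j, ∃ e, HomX (H j) e) →
        List.TFAE [Brody F H, AllLG ℂ F H, Pointed F H]) ↔
    ∀ (n : ℕ) (τ ι κ : Type) [Finite τ] [Finite ι] [Finite κ]
      (F : ι → MvPolynomial (Fin (n + 1) ⊕ τ) ℂ) (H : κ → MvPolynomial (Fin (n + 1) ⊕ τ) ℂ),
      (∀ i, ∃ e, HomX (F i) e) → (∀ j, ∃ e, HomX (H j) e) → AffineCharts F →
        List.TFAE [Brody F H, AllLG ℂ F H, Pointed F H]) := by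
  have h1 : ∀ (n : ℕ) (τ ι κ : Type) [Finite τ] [Finite ι] [Finite κ]
      (F : ι → MvPolynomial (Fin (n + 1) ⊕ τ) ℂ) (H : κ → MvPolynomial (Fin (n + 1) ⊕ τ) ℂ),
      (∀ i, ∃ e, HomX (F i) e) → (∀ j, ∃ e, HomX (H j) e) →
      ∃ (υ ι' : Type) (_ : Finite υ) (_ : Finite ι')
        (F' : ι' → MvPolynomial (Fin (n + 1) ⊕ (τ ⊕ υ)) ℂ)
        (H' : κ → MvPolynomial (Fin (n + 1) ⊕ (τ ⊕ υ)) ℂ),
        (∀ i, ∃ e, HomX (F' i) e) ∧ (∀ j, ∃ e, HomX (H' j) e) ∧ AffineCharts F' ∧
        ClosedIn F H F' H' ∧
        (∀ (f : ℂ → ℙ ℂ (Fin (n + 1) → ℂ)) (s : ℂ → τ ⊕ υ → ℂ), Holo f →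
          (∀ j, Differentiable ℂ fun z => s z j) →
          (∀ z, (∀ i, aeval (Sum.elim (f z).rep (s z)) (F' i) = 0) ∧
            ∃ j, aeval (Sum.elim (f z).rep (s z)) (H' j) ≠ 0) →
          (∀ z u, s z (Sum.inr u) = 0) ∨ ∀ z w, f z = f w ∧ s z = s w) ∧
        (∀ (E : Type) [Field E] [Algebra ℂ E] (x : Fin (n + 1) → E) (s : τ ⊕ υ → E) (d : ℕ),
          GenPt ℂ F' H' x s → (∃ u, s (Sum.inr u) ≠ 0) → 0 < d → Algebra.trdeg ℂ E = d →
          LogGeneralType ℂ E d fun P => ¬ Extends {z | P.Reg z} H' x s) ∧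
        (∀ (E : Type) [Field E] [Algebra ℂ E] [IsFF ℂ E] (S : Set (Place ℂ E)) (c : Place ℂ E)
          (a : Fin (n + 1) → ℂ) (b : τ ⊕ υ → ℂ), Sᶜ.Finite → c ∈ S → a ≠ 0 →
          {Q ∈ Mor S F' H' | SendsTo c Q.1.rep Q.2 a b ∧ ∃ u, Q.2 (Sum.inr u) ≠ 0}.Finite) ∧
        (Brody F' H' ↔ Brody F H) ∧ (AllLG ℂ F' H' ↔ AllLG ℂ F H) ∧
        (Pointed F' H' ↔ Pointed F H) := by
    intro n τ ι κ _ _ _ F H hF hH
    choose e he using hF
    exact ⟨Pool.Agent.N111.QC.Ups ι n, _, inferInstance, inferInstance,
      Pool.Agent.N111.QC.Fb F e, Pool.Agent.N111.QC.Hb H, Pool.Agent.N111.QC.Fb_hom he,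
      fun j => (hH j).imp fun _ h => Pool.Agent.N111.QC.Hb_hom h,
      Pool.Agent.N111.QC.charts F e, Pool.Agent.N111.QC.closedIn F H e,
      fun f s _ hs hp => Pool.Agent.N111.QC.entire_off hs hp,
      fun E _ _ x s d hg hoff hd htr => Pool.Agent.N111.QC.lg_off hg hoff hd htr,
      fun E _ _ _ S c a b hS hc _ => (Pool.Agent.N111.QC.pointed_off hS hc b).subset
        fun Q hQ => ⟨hQ.1, hQ.2.1.2, hQ.2.2⟩,
      Pool.Agent.N111.QC.brody_iff, Pool.Agent.N111.QC.allLG_iff,
      Pool.Agent.N111.QC.pointed_iff⟩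
  refine ⟨h1, fun h n τ ι κ _ _ _ F H hF hH _ => h n τ ι κ F H hF hH,
    fun h n τ ι κ _ _ _ F H hF hH => ?_⟩
  obtain ⟨υ, ι', _, _, F', H', hF', hH', hch, -, -, -, -, e1, e2, e3⟩ := h1 n τ ι κ F H hF hH
  have h2 := h n (τ ⊕ υ) ι' κ F' H' hF' hH' hch
  rwa [e1, e2, e3] at h2

end Pool.Agent.Results.MP_dc0411_ag.RationalVarieties
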