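import Mathlib
import Pool.Agent.N131.SU.Rat

/-!
# A uniform inequality for entire curves in varieties of logarithmic general type

Let `X` be the complement of the hypersurface `Q = 0` in a complex projective variety, where `Q` is a
form of degree `d`; for `d = 0` the variety `X` is projective, for `d > 0` it is affine. For **every**
such `X` of logarithmic general type we prove an inequality of the type of the second main theorem of
Nevanlinna theory, with ramification, with a constant and with an exceptional hypersurface that do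
not depend on the curve: there are a form `A` which does not vanish on `X` and a number `C` such that
all entire curves `f` in the closure of `X` which are contained neither in `A = 0` nor in `Q = 0`
satisfy

`T(r) ≤ C (N₁(W, r) + N₁(Q(f), r) + log r)`

for all `r ≥ 1` outside a set of finite measure. Here `W` is the Wronskian determinant of a basis of
the linear span of the entire functions `f_j`, `T` is the characteristic function of `f`, and
`N₁(h, r)` is the counting function of the zeros of `h` in which every zero is counted once.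

For rational curves this becomes an algebraic inequality: the degree of every rational curve in the
closure of `X` which is contained neither in `A = 0` nor in `Q = 0` is at most
`C (#{W = 0} + #{Q(f) = 0} + 1)`.

More generally, let `f = P(G)` where `G` is an entire curve in the projective space of dimension `M`
and `P` is given by forms of the degree `e`, and let `W` be the Wronskian of `G`. Then there are `A`
and `C` which depend only on `X`, `M` and `e` with

`T_f(r) ≤ C (N₁(W, r) + N₁(Q(f), r) + log r + log⁺ T_G(r))`.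

If all subvarieties of `X` of positive dimension which are not contained in a given hypersurface
`A = 0` are of logarithmic general type, then the inequalities hold with this `A`.
-/

set_option autoImplicit false

namespace Pool.Agent.Results.MP_dc0411_ag.UniformRamification

open MeasureTheory MvPolynomial
open Pool.Agent.TH143.GT (FunField)
open Pool.Agent.W602.GT (IsForm LogGeneralType)
open Pool.Agent.W603.GR (OffQ SubLogGT)
open Pool.Agent.W603.PV (IsHomog)

/-- The characteristic function of the curve with the homogeneous coordinates `f`: the mean of the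
logarithm of the maximum norm over the circle of the radius `r`. -/
noncomputable def T {N : ℕ} (f : Fin (N + 1) → ℂ → ℂ) (r : ℝ) : ℝ :=
  Real.circleAverage (fun z => Real.log ‖fun j => f j z‖) 0 r

/-- The counting function of the zeros of `h`; every zero is counted once. -/
noncomputable def N₁ (h : ℂ → ℂ) (r : ℝ) : ℝ :=
  ∑ᶠ z ∈ {z : ℂ | h z = 0 ∧ ‖z‖ ≤ r}, if z = 0 then Real.log r else Real.log (r / ‖z‖)

/-- The Wronskian determinant. -/
noncomputable def W {n : ℕ} (g : Fin n → ℂ → ℂ) (z : ℂ) : ℂ :=
  Matrix.det (Matrix.of fun i j : Fin n => iteratedDeriv i (g j) z)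

/-- An entire curve in the projective space of dimension `N`, given as the image of entire functions
`G_0, …, G_M` under forms `P` of the same degree `e > 0` which have no common zeros along `G`, with
a basis `g` of the linear span of the functions `G`. -/
structure Curve (N M e : ℕ) where
  G : Fin (M + 1) → ℂ → ℂ
  hol : ∀ k, Differentiable ℂ (G k)
  pos : 0 < e
  P : Fin (N + 1) → MvPolynomial (Fin (M + 1)) ℂ
  hom : ∀ j, (P j).IsHomogeneous e
  ne : ∀ z, ∃ j, eval (fun k => G k z) (P j) ≠ 0
  n : ℕ
  g : Fin n → ℂ → ℂ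
  ind : LinearIndependent ℂ g
  span : Submodule.span ℂ (Set.range g) = Submodule.span ℂ (Set.range G)

variable {N M e : ℕ}

/-- The homogeneous coordinates of the curve. -/
noncomputable def Curve.f (c : Curve N M e) (z : ℂ) (j : Fin (N + 1)) : ℂ :=
  eval (fun k => c.G k z) (c.P j)

/-- A form vanishes along the curve. -/
def Curve.On (c : Curve N M e) (F : MvPolynomial (Fin (N + 1)) ℂ) : Prop :=
  ∀ z, eval (c.f z) F = 0

/-- The inequality with the constant `C`: there is a set `E` of finite measure with
`T_f(r) ≤ C (N₁(W, r) + N₁(Q(f), r) + log r + log⁺ T_G(r))` for all `r ≥ 1` outside `E`. -/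
def Curve.Bound (c : Curve N M e) (Q : MvPolynomial (Fin (N + 1)) ℂ) (C : ℝ) : Prop :=
  ∃ E : Set ℝ, volume E < ⊤ ∧ ∀ r, 1 ≤ r → r ∉ E → T (fun j z => c.f z j) r ≤
    C * (N₁ (W c.g) r + N₁ (fun z => eval (c.f z) Q) r + Real.log r + Real.posLog (T c.G r))

/-- The entire functions `f` without common zeros as a curve: `G = f`. -/
noncomputable def Curve.self (f : Fin (N + 1) → ℂ → ℂ) (hf : ∀ j, Differentiable ℂ (f j))
    (h0 : ∀ z, ∃ j, f j z ≠ 0) {n : ℕ} (g : Fin n → ℂ → ℂ) (hg : LinearIndependent ℂ g)
    (hs : Submodule.span ℂ (Set.range g) = Submodule.span ℂ (Set.range f)) : Curve N N 1 where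
  G := f
  hol := hf
  pos := one_pos
  P := fun j => X j
  hom := fun j => isHomogeneous_X _ j
  ne := fun z => by
    obtain ⟨j, hj⟩ := h0 z
    exact ⟨j, by rwa [eval_X]⟩
  n := n
  g := g
  ind := hg
  span := hs

theorem N₁_eq {h : ℂ → ℂ} {r : ℝ} (hr : 1 ≤ r) (hfin : {z : ℂ | h z = 0 ∧ ‖z‖ ≤ r}.Finite) :
    N₁ h r = N131.SR.Nb h r := by
  classical
  have hF : ∀ z, z ∈ hfin.toFinset ↔ h z = 0 ∧ ‖z‖ ≤ r := fun z => by
    rw [Set.Finite.mem_toFinset]
    rfl
  rw [N131.SR.Nb_eq r hfin.toFinset hF]
  unfold N₁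
  rw [finsum_mem_eq_finite_toFinset_sum _ hfin]
  have h1 : ∀ z ∈ hfin.toFinset, (if z = 0 then Real.log r else Real.log (r / ‖z‖)) =
      Real.log (r * ‖z‖⁻¹) + if z = 0 then Real.log r else 0 := by
    intro z _
    by_cases h : z = 0
    · simp [h]
    · simp [h, div_eq_mul_inv]
  rw [Finset.sum_congr rfl h1, Finset.sum_add_distrib, Finset.sum_ite_eq']
  congr 1
  by_cases h0 : h 0 = 0
  · rw [if_pos ((hF 0).2 ⟨h0, by rw [norm_zero]; linarith⟩),
      Set.indicator_of_mem (show (0 : ℂ) ∈ {z : ℂ | h z = 0} from h0)]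
    simp
  · rw [if_neg fun h2 => h0 ((hF 0).1 h2).1,
      Set.indicator_of_notMem (show (0 : ℂ) ∉ {z : ℂ | h z = 0} from h0)]
    simp

/-- the curve in the notation of the proof -/
noncomputable def Curve.crv (c : Curve N M e) : N131.SU.Crv M N c.n e :=
  ⟨c.G, c.P, c.g, ⟨c.hol, c.pos, c.hom, c.ne, c.ind, c.span⟩⟩

theorem Curve.wr (c : Curve N M e) {r : ℝ} (hr : 1 ≤ r) :
    N₁ (W c.g) r = N131.SR.Nb (N131.SR.Wr c.g) r := by
  obtain ⟨a, b, ha, hb, hgd, hW⟩ := c.crv.D.data
  exact N₁_eq hr (N131.SR.zeros_finite (N131.SR.Wr_diff hgd) hW r)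

theorem Curve.not_on {c : Curve N M e} {F : MvPolynomial (Fin (N + 1)) ℂ} (h : ¬ c.On F) :
    ∃ z, eval (fun j => c.crv.f j z) F ≠ 0 := by
  unfold Curve.On at h
  push Not at h
  exact h

theorem Curve.bound_iff (c : Curve N M e) {Q : MvPolynomial (Fin (N + 1)) ℂ} {C : ℝ}
    (hq : ¬ c.On Q) : c.Bound Q C ↔
      c.crv.Bd (N131.SR.Tf c.crv.f) (fun z => eval (fun j => c.crv.f j z) Q) C := by
  have hqd : Differentiable ℂ fun z => eval (c.f z) Q :=
    N131.SR.form_diff (N131.SR.img_diff (P := c.P) c.hol) Q
  have e2 : ∀ r, 1 ≤ r → N₁ (fun z => eval (c.f z) Q) r =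
      N131.SR.Nb (fun z => eval (fun j => c.crv.f j z) Q) r := fun r hr =>
    N₁_eq hr (N131.SR.zeros_finite hqd (Curve.not_on hq) r)
  constructor
  · rintro ⟨E, hE, hb⟩
    refine ⟨E, hE, fun r hr hrE => ?_⟩
    have h1 := hb r hr hrE
    rw [c.wr hr, e2 r hr] at h1
    exact h1
  · rintro ⟨E, hE, hb⟩
    refine ⟨E, hE, fun r hr hrE => ?_⟩
    rw [c.wr hr, e2 r hr]
    exact hb r hr hrE

theorem self_f (f : Fin (N + 1) → ℂ → ℂ) (hf : ∀ j, Differentiable ℂ (f j))
    (h0 : ∀ z, ∃ j, f j z ≠ 0) {n : ℕ} (g : Fin n → ℂ → ℂ) (hg : LinearIndependent ℂ g)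
    (hs : Submodule.span ℂ (Set.range g) = Submodule.span ℂ (Set.range f)) (z : ℂ) :
    (Curve.self f hf h0 g hg hs).f z = fun j => f j z := by
  funext j
  exact eval_X j

theorem N₁_nonneg {h : ℂ → ℂ} {r : ℝ} (hr : 1 ≤ r) : 0 ≤ N₁ h r := by
  apply finsum_nonneg
  intro z
  apply finsum_nonneg
  intro hz
  split_ifs with h0
  · exact Real.log_nonneg hr
  · apply Real.log_nonneg
    rw [le_div_iff₀ (norm_pos_iff.2 h0), one_mul]
    exact hz.2

/-- Let `Q` be a form of degree `d`.

(1) Let `X` be the complement of `Q = 0` in the projective variety with the ideal `p`, the function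
field `K`, the generic point `y` and the dimension `w`, and let `X` be of logarithmic general type.
For all `M` and `e` there are a form `A` which does not belong to `p` and a number `C` such that the
inequality holds with the constant `C` for all entire curves `f = P(G)`, with `G_0, …, G_M` and `P`
of the degree `e`, in the closure of `X` which are contained neither in `A = 0` nor in `Q = 0`.

(2) Let `p` be a homogeneous ideal and `A` a form such that all closed subvarieties of positive
dimension of the complement `X` of `Q = 0` in the algebraic set of `p` which are not contained in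
`A = 0` are of logarithmic general type. For all `M` and `e` there is a number `C` such that the
inequality holds with the constant `C` for all entire curves `f = P(G)` in the closure of `X` which
are contained neither in `A = 0` nor in `Q = 0`.

(3) For every `C` there is `C'` such that for all curves with `G = f` the inequality with the
constant `C` implies `T_f(r) ≤ C' (N₁(W, r) + N₁(Q(f), r) + log r)` for all `r ≥ 1` outside a set of
finite measure, and, if the `f_j` are polynomials, that the degrees of the `f_j` are at most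
`C' (#{W = 0} + #{Q(f) = 0} + 1)`. -/
theorem result {Q : MvPolynomial (Fin (N + 1)) ℂ} {d : ℕ} (hQ : Q.IsHomogeneous d) :
    (∀ (p : Ideal (MvPolynomial (Fin (N + 1)) ℂ)) (K : Type) [Field K] [Algebra ℂ K] (w : ℕ)
      (y : Fin (N + 1) → K), FunField p Q K w y → LogGeneralType ℂ K w (OffQ Q d y) →
      ∀ M e : ℕ, ∃ A : MvPolynomial (Fin (N + 1)) ℂ, IsForm A ∧ A ∉ p ∧ ∃ C : ℝ,
        ∀ c : Curve N M e, (∀ F ∈ p, IsForm F → c.On F) → ¬ c.On A → ¬ c.On Q → c.Bound Q C) ∧
    (∀ (p : Ideal (MvPolynomial (Fin (N + 1)) ℂ)), IsHomog p →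
      ∀ A : MvPolynomial (Fin (N + 1)) ℂ, IsForm A → SubLogGT p Q d A →
        ∀ M e : ℕ, ∃ C : ℝ, ∀ c : Curve N M e, (∀ F ∈ p, IsForm F → c.On F) →
          ¬ c.On A → ¬ c.On Q → c.Bound Q C) ∧
    ∀ C : ℝ, ∃ C' : ℝ, ∀ (f : Fin (N + 1) → ℂ → ℂ) (hf : ∀ j, Differentiable ℂ (f j))
      (h0 : ∀ z, ∃ j, f j z ≠ 0) (n : ℕ) (g : Fin n → ℂ → ℂ) (hg : LinearIndependent ℂ g)
      (hs : Submodule.span ℂ (Set.range g) = Submodule.span ℂ (Set.range f)),
      ¬ (Curve.self f hf h0 g hg hs).On Q → (Curve.self f hf h0 g hg hs).Bound Q C →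
        (∃ E : Set ℝ, volume E < ⊤ ∧ ∀ r, 1 ≤ r → r ∉ E → T f r ≤ C' * (N₁ (W g) r +
          N₁ (fun z => eval (fun j => f j z) Q) r + Real.log r)) ∧
        ∀ p : Fin (N + 1) → Polynomial ℂ, (∀ j z, f j z = (p j).eval z) → ∀ l,
          ((p l).natDegree : ℝ) ≤ C' * ({z : ℂ | W g z = 0}.ncard +
            {z : ℂ | eval (fun j => f j z) Q = 0}.ncard + 1) := by
  refine ⟨?_, ?_, ?_⟩
  · intro p K _ _ w y hy hL M e
    obtain ⟨A, hA, hAp, C, hC⟩ := N131.SU.gt_fin hQ hy hL M e
    exact ⟨A, hA, hAp, C, fun c hI hcA hcQ => (c.bound_iff hcQ).2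
      (hC c.n c.crv ⟨hI, Curve.not_on hcQ⟩ (Curve.not_on hcA))⟩
  · intro p hp A hA hS M e
    obtain ⟨C, hC⟩ := N131.SU.sub_fin hQ hp hA hS M e
    exact ⟨C, fun c hI hcA hcQ => (c.bound_iff hcQ).2
      (hC c.n c.crv ⟨hI, Curve.not_on hcQ, Curve.not_on hcA⟩)⟩
  · intro C
    obtain ⟨C', hC'0, hC'⟩ := N131.SU.absorb C
    refine ⟨C', fun f hf h0 n g hg hs hq hB => ?_⟩
    have hself : (fun (j : Fin (N + 1)) (z : ℂ) => (Curve.self f hf h0 g hg hs).f z j) = f := by
      funext j z
      exact eval_X j
    have hselfQ : (fun z => eval ((Curve.self f hf h0 g hg hs).f z) Q) =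
        fun z => eval (fun j => f j z) Q := by
      funext z
      rw [self_f]
    have h1 : ∃ E : Set ℝ, volume E < ⊤ ∧ ∀ r, 1 ≤ r → r ∉ E → T f r ≤ C' * (N₁ (W g) r +
          N₁ (fun z => eval (fun j => f j z) Q) r + Real.log r) := by
      obtain ⟨E, hE, hb⟩ := hB
      refine ⟨E ∪ Set.Icc 1 2, N131.SU.fin_union hE 2, fun r hr hrE => ?_⟩
      have h2 := hb r hr fun h => hrE (Or.inl h)
      have h3 : 2 ≤ r := by
        by_contra hcon
        push Not at hcon
        exact hrE (Or.inr ⟨hr, hcon.le⟩)
      rw [hself, hselfQ] at h2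
      exact hC' _ _ r (add_nonneg (N₁_nonneg hr) (N₁_nonneg hr)) h3 h2
    refine ⟨h1, fun p hp l => ?_⟩
    obtain ⟨E, hE, hb⟩ := h1
    -- the Wronskian is a polynomial
    obtain ⟨a, b, ha, hb', hgd, hWne⟩ := (Curve.self f hf h0 g hg hs).crv.D.data
    have hgp : ∀ k z, g k z = (∑ j, Polynomial.C (a k j) * p j).eval z := by
      intro k z
      rw [Polynomial.eval_finset_sum]
      refine (ha k z).trans (Finset.sum_congr rfl fun j _ => ?_)
      rw [Polynomial.eval_mul, Polynomial.eval_C, ← hp]
      rfl
    obtain ⟨w, hw⟩ := N131.SU.wr_poly fun k => ∑ j, Polynomial.C (a k j) * p j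
    have hg' : g = fun k z => (∑ j, Polynomial.C (a k j) * p j).eval z :=
      funext fun k => funext fun z => hgp k z
    have hWp : ∀ z, W g z = w.eval z := by
      intro z
      rw [← hw]
      conv_lhs => rw [hg']
      rfl
    have hQp : ∀ z, eval (fun j => f j z) Q = (aeval p Q : Polynomial ℂ).eval z := by
      intro z
      rw [N131.SR.eval_poly]
      simp only [hp]
    refine N131.SU.rat_degree (p := p) (fun z => by
      obtain ⟨j, hj⟩ := h0 z
      exact ⟨j, by rwa [← hp]⟩) hC'0 (N131.SU.poly_finite hWp hWne)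
      (N131.SU.poly_finite hQp ?_) hE (fun r hr hrE => ?_) l
    · obtain ⟨z, hz⟩ := Curve.not_on hq
      refine ⟨z, fun h => hz ?_⟩
      have h2 := congrFun hselfQ z
      exact h2.trans h
    · have h2 := hb r hr hrE
      have h3 : (fun j z => (p j).eval z) = f := funext fun j => funext fun z => (hp j z).symm
      rw [h3]
      exact h2

end Pool.Agent.Results.MP_dc0411_ag.UniformRamification
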